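import Mathlib

set_option autoImplicit false

open scoped RealInnerProductSpace

namespace Pool.Agent.Lib.MP_ec86f1_an

variable {E : Type*} [NormedAddCommGroup E] [InnerProductSpace ℝ E]

/-- two-sided bound -/
def Bnd (m L : ℝ) (A : E →L[ℝ] E) : Prop :=
  ∀ v, m * ‖v‖ ≤ ‖A v‖ ∧ ‖A v‖ ≤ L * m * ‖v‖

def Ratio (L : ℝ) (A : E →L[ℝ] E) : Prop := ∃ m, 0 < m ∧ Bnd m L A

lemma perturb {L L' : ℝ} (hL : 0 ≤ L) (hLL : L < L') :
    ∃ ε, 0 < ε ∧ ∀ (m c : ℝ) (A B : E →L[ℝ] E), 0 < c → c ≤ m → Bnd m L A →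
      ‖B - A‖ ≤ ε * c → Ratio L' B := by
  have h1 : 0 < 1 + L' := by linarith
  refine ⟨(L' - L) / (1 + L'), by apply div_pos <;> linarith, ?_⟩
  intro m c A B hc hcm hA hB
  set ε := (L' - L) / (1 + L') with hε
  have hε0 : 0 < ε := by apply div_pos <;> linarith
  have hε1 : ε < 1 := by rw [hε, div_lt_one h1]; linarith
  have hε2 : ε * (1 + L') = L' - L := by rw [hε]; field_simp
  have hm : 0 < m := lt_of_lt_of_le hc hcm
  refine ⟨(1 - ε) * m, mul_pos (by linarith) hm, fun v => ?_⟩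
  have h2 : ‖(B - A) v‖ ≤ ε * m * ‖v‖ := by
    refine ((B - A).le_opNorm v).trans ?_
    apply mul_le_mul_of_nonneg_right _ (norm_nonneg _)
    exact hB.trans (mul_le_mul_of_nonneg_left hcm hε0.le)
  have h3 : B v = A v + (B - A) v := by simp
  obtain ⟨ha, hb⟩ := hA v
  constructor
  · have : ‖A v‖ ≤ ‖B v‖ + ‖(B - A) v‖ := by
      have : A v = B v - (B - A) v := by simp
      rw [this]; exact norm_sub_le _ _
    nlinarith
  · have : ‖B v‖ ≤ ‖A v‖ + ‖(B - A) v‖ := by rw [h3]; exact norm_add_le _ _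
    have h5 : L' * ((1 - ε) * m) * ‖v‖ = L * m * ‖v‖ + ε * m * ‖v‖ := by
      have : L' * (1 - ε) = L + ε := by linarith
      calc L' * ((1 - ε) * m) * ‖v‖ = (L' * (1 - ε)) * m * ‖v‖ := by ring
        _ = _ := by rw [this]; ring
    linarith

lemma Ratio.mono {L L' : ℝ} {A : E →L[ℝ] E} (h : Ratio L A) (hL : L ≤ L') : Ratio L' A := by
  obtain ⟨m, hm, hA⟩ := h
  refine ⟨m, hm, fun v => ⟨(hA v).1, (hA v).2.trans ?_⟩⟩
  gcongr

/-- accretive sum estimate -/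
lemma accretive {X Y Z : E} {l τ N : ℝ} (hl : 0 ≤ l) (hτ : 0 ≤ τ) (hN : 0 ≤ N)
    (hX : ‖X‖ = l * N) (hY1 : τ * N / 2 ≤ ‖Y‖) (hY2 : ‖Y‖ ≤ τ * N) (hXY : 0 ≤ ⟪X, Y⟫)
    (hZ : ‖Z‖ ≤ (l + τ) / 25 * N) :
    2 / 5 * (l + τ) * N ≤ ‖X + Y + Z‖ ∧ ‖X + Y + Z‖ ≤ 3 * (2 / 5 * (l + τ)) * N := by
  have h1 : ‖X + Y‖ ^ 2 = ‖X‖ ^ 2 + 2 * ⟪X, Y⟫ + ‖Y‖ ^ 2 := norm_add_sq_real X Y
  have hlN : 0 ≤ l * N := mul_nonneg hl hN
  have hτN : 0 ≤ τ * N := mul_nonneg hτ hN
  have h2 : (τ * N / 2) ^ 2 ≤ ‖Y‖ ^ 2 := by gcongr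
  have h3 : (11 / 25 * (l * N + τ * N)) ^ 2 ≤ ‖X + Y‖ ^ 2 := by
    rw [h1, hX]; nlinarith [sq_nonneg (l * N - τ * N / 4)]
  have h4 : 11 / 25 * (l * N + τ * N) ≤ ‖X + Y‖ :=
    (pow_le_pow_iff_left₀ (by positivity) (norm_nonneg _) two_ne_zero).1 h3
  constructor
  · have : ‖X + Y‖ ≤ ‖X + Y + Z‖ + ‖Z‖ := by
      have : X + Y = (X + Y + Z) - Z := by abel
      conv_lhs => rw [this]
      exact norm_sub_le _ _
    nlinarith
  · have := norm_add_le (X + Y) Z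
    have := norm_add_le X Y
    nlinarith

variable [FiniteDimensional ℝ E]

lemma svd {m : ℝ} (hm : 0 < m) (A : E →L[ℝ] E) (hA : ∀ v, m * ‖v‖ ≤ ‖A v‖) :
    ∃ (e u : OrthonormalBasis (Fin (Module.finrank ℝ E)) ℝ E) (σ : Fin (Module.finrank ℝ E) → ℝ),
      (∀ i, m ≤ σ i) ∧ ∀ i, A (e i) = σ i • u i := by
  classical
  let T : E →ₗ[ℝ] E := (LinearMap.adjoint (A : E →ₗ[ℝ] E)) ∘ₗ (A : E →ₗ[ℝ] E)
  have hT : T.IsSymmetric := by
    intro x y
    simp only [T, LinearMap.comp_apply, LinearMap.adjoint_inner_left, LinearMap.adjoint_inner_right]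
  let e := hT.eigenvectorBasis rfl
  have he : ∀ i j, i ≠ j → ⟪A (e i), A (e j)⟫ = 0 := by
    intro i j hij
    have h1 : ⟪A (e i), A (e j)⟫ = ⟪T (e i), e j⟫ := by
      simp only [T, LinearMap.comp_apply, LinearMap.adjoint_inner_left]; rfl
    rw [h1, hT.apply_eigenvectorBasis rfl i, inner_smul_left]
    have : ⟪e i, e j⟫ = 0 := e.orthonormal.inner_eq_zero hij
    simp [e] at this
    simp [e, this]
  have hσ : ∀ i, m ≤ ‖A (e i)‖ := by
    intro i
    have := hA (e i)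
    rwa [e.orthonormal.norm_eq_one, mul_one] at this
  have hσ0 : ∀ i, ‖A (e i)‖ ≠ 0 := fun i => (lt_of_lt_of_le hm (hσ i)).ne'
  let w : Fin (Module.finrank ℝ E) → E := fun i => (‖A (e i)‖⁻¹) • A (e i)
  have hw : Orthonormal ℝ w := by
    constructor
    · intro i
      simp only [w, norm_smul, norm_inv, norm_norm]
      exact inv_mul_cancel₀ (hσ0 i)
    · intro i j hij
      simp only [w, inner_smul_left, inner_smul_right, he i j hij, mul_zero]
  have hsp : ⊤ ≤ Submodule.span ℝ (Set.range w) := by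
    apply le_of_eq
    symm
    apply hw.linearIndependent.span_eq_top_of_card_eq_finrank'
    simp
  refine ⟨e, OrthonormalBasis.mk hw hsp, fun i => ‖A (e i)‖, hσ, fun i => ?_⟩
  simp only [OrthonormalBasis.coe_mk, w, smul_smul]
  rw [mul_inv_cancel₀ (hσ0 i), one_smul]

lemma polar {m : ℝ} (hm : 0 < m) (A : E →L[ℝ] E) (hA : ∀ v, m * ‖v‖ ≤ ‖A v‖) :
    ∃ U : E →L[ℝ] E, (∀ v, ‖U v‖ = ‖v‖) ∧ ∀ v, m * ‖v‖ ^ 2 ≤ ⟪A v, U v⟫ := by
  obtain ⟨e, u, σ, hσ, hAe⟩ := svd hm A hA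
  let U := e.equiv u (Equiv.refl _)
  refine ⟨U.toContinuousLinearEquiv, fun v => U.norm_map v, fun v => ?_⟩
  have h1 : A v = ∑ i, (e.repr v i * σ i) • u i := by
    conv_lhs => rw [← e.sum_repr v, map_sum]
    refine Finset.sum_congr rfl fun i _ => ?_
    rw [map_smul, hAe, smul_smul]
  have h2 : (U.toContinuousLinearEquiv : E →L[ℝ] E) v = ∑ i, e.repr v i • u i := by
    have := e.equiv_apply u (Equiv.refl _) v
    simpa [U] using this
  have h3 : ‖v‖ ^ 2 = ∑ i, e.repr v i ^ 2 := by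
    rw [← e.repr.norm_map v, EuclideanSpace.real_norm_sq_eq]
  rw [h1, h2, u.orthonormal.inner_sum, h3, Finset.mul_sum]
  refine Finset.sum_le_sum fun i _ => ?_
  simp only [conj_trivial]
  nlinarith [hσ i, sq_nonneg (e.repr v i)]

lemma det_lower {m : ℝ} (hm : 0 < m) (A : E →L[ℝ] E) (hA : ∀ v, m * ‖v‖ ≤ ‖A v‖) :
    m ^ Module.finrank ℝ E ≤ |A.det| := by
  classical
  obtain ⟨e, u, σ, hσ, hAe⟩ := svd hm A hA
  have h1 := e.toBasis.det_comp (A : E →ₗ[ℝ] E) e.toBasis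
  rw [Module.Basis.det_self, mul_one] at h1
  have h2 : ((A : E →ₗ[ℝ] E) ∘ e.toBasis) = fun i => σ i • u i := by
    funext i; simp [hAe]
  rw [h2, AlternatingMap.map_smul_univ] at h1
  have h3 : |e.toBasis.det u| = 1 := by
    rcases e.det_to_matrix_orthonormalBasis_real u with h | h <;> simp [h]
  have h4 : A.det = LinearMap.det (A : E →ₗ[ℝ] E) := rfl
  rw [h4, ← h1, smul_eq_mul, abs_mul]
  have h5 : |e.toBasis.det fun i => u i| = 1 := h3
  rw [h5, mul_one]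
  refine le_trans ?_ (le_abs_self _)
  calc m ^ Module.finrank ℝ E = ∏ _i : Fin (Module.finrank ℝ E), m := by simp
    _ ≤ _ := Finset.prod_le_prod (fun _ _ => hm.le) (fun i _ => hσ i)

lemma Ratio.norm_pow_le {L : ℝ} (hL : 0 ≤ L) {A : E →L[ℝ] E} (h : Ratio L A) :
    A.det ≠ 0 ∧ ‖A‖ ^ Module.finrank ℝ E ≤ L ^ Module.finrank ℝ E * |A.det| := by
  obtain ⟨m, hm, hA⟩ := h
  have h1 := det_lower hm A (fun v => (hA v).1)
  have h2 : ‖A‖ ≤ L * m := A.opNorm_le_bound (by positivity) (fun v => (hA v).2)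
  constructor
  · intro h0
    rw [h0, abs_zero] at h1
    exact absurd h1 (not_le.2 (pow_pos hm _))
  · calc ‖A‖ ^ Module.finrank ℝ E ≤ (L * m) ^ Module.finrank ℝ E := by gcongr
      _ = L ^ Module.finrank ℝ E * m ^ Module.finrank ℝ E := mul_pow _ _ _
      _ ≤ _ := by gcongr

omit [FiniteDimensional ℝ E] in
/-- quarter turn taking `a` to `b` -/
lemma quarter {a b : E} (ha : ‖a‖ = 1) (hb : ‖b‖ = 1) (hab : ⟪a, b⟫ = 0) :
    ∃ R : E →L[ℝ] E, (∀ v, ‖R v‖ = ‖v‖) ∧ (∀ v, 0 ≤ ⟪v, R v⟫) ∧ R a = b := by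
  have haa : ⟪a, a⟫ = 1 := by rw [real_inner_self_eq_norm_sq, ha]; norm_num
  have hbb : ⟪b, b⟫ = 1 := by rw [real_inner_self_eq_norm_sq, hb]; norm_num
  have hba : ⟪b, a⟫ = 0 := by rw [real_inner_comm, hab]
  refine ⟨ContinuousLinearMap.id ℝ E + (innerSL ℝ a).smulRight (b - a)
    - (innerSL ℝ b).smulRight (a + b), fun v => ?_, fun v => ?_, ?_⟩
  · have : ‖(ContinuousLinearMap.id ℝ E + (innerSL ℝ a).smulRight (b - a)
        - (innerSL ℝ b).smulRight (a + b)) v‖ ^ 2 = ‖v‖ ^ 2 := by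
      rw [← real_inner_self_eq_norm_sq, ← real_inner_self_eq_norm_sq]
      simp only [sub_apply, add_apply,
        ContinuousLinearMap.id_apply, ContinuousLinearMap.smulRight_apply, innerSL_apply_apply,
        inner_sub_left, inner_sub_right, inner_add_left, inner_add_right, inner_smul_left,
        inner_smul_right, haa, hbb, hab, hba, conj_trivial, real_inner_comm v a,
        real_inner_comm v b]
      ring
    exact (pow_left_inj₀ (norm_nonneg _) (norm_nonneg _) two_ne_zero).1 this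
  · have h0 : 0 ≤ ⟪v - ⟪a, v⟫ • a - ⟪b, v⟫ • b, v - ⟪a, v⟫ • a - ⟪b, v⟫ • b⟫ :=
      real_inner_self_nonneg
    simp only [sub_apply, add_apply,
        ContinuousLinearMap.id_apply, ContinuousLinearMap.smulRight_apply, innerSL_apply_apply,
        inner_sub_left, inner_sub_right, inner_add_left, inner_add_right, inner_smul_left,
        inner_smul_right, haa, hbb, hab, hba, conj_trivial, real_inner_comm v a,
        real_inner_comm v b] at h0 ⊢
    nlinarith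
  · simp [ha, hba]

lemma exists_orth (h3 : 3 ≤ Module.finrank ℝ E) (a b : E) :
    ∃ w : E, ‖w‖ = 1 ∧ ⟪a, w⟫ = 0 ∧ ⟪w, b⟫ = 0 := by
  classical
  let K : Submodule ℝ E := Submodule.span ℝ ({a, b} : Finset E)
  have hK : Module.finrank ℝ K ≤ 2 := by
    refine (finrank_span_finset_le_card ({a, b} : Finset E)).trans ?_
    exact Finset.card_le_two
  have hK2 := K.finrank_add_finrank_orthogonal
  have hpos : 0 < Module.finrank ℝ Kᗮ := by omega
  have : Nontrivial Kᗮ := Module.finrank_pos_iff.1 hpos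
  obtain ⟨w, hw⟩ := exists_norm_eq Kᗮ (zero_le_one)
  refine ⟨w, hw, ?_, ?_⟩
  · exact (Submodule.mem_orthogonal K w).1 w.2 a (Submodule.subset_span (by simp))
  · rw [real_inner_comm]
    exact (Submodule.mem_orthogonal K w).1 w.2 b (Submodule.subset_span (by simp))

end Pool.Agent.Lib.MP_ec86f1_an
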