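import Pool.Agent.Lib.MP_ec86f1_an.Sing

set_option autoImplicit false

open scoped RealInnerProductSpace Topology
open Metric

namespace Pool.Agent.Lib.MP_ec86f1_an

variable {E : Type*} [NormedAddCommGroup E] [InnerProductSpace ℝ E] [FiniteDimensional ℝ E]

def Inv (L : ℝ) (f : E → E) : Prop :=
  ∀ x ∈ closedBall (0 : E) 1, ContDiffAt ℝ 1 f x ∧ Ratio L (fderiv ℝ f x)

omit [FiniteDimensional ℝ E] in
lemma inner_shift {b x : E} (hb : ‖b‖ = 1) (hx : x ∈ closedBall (0 : E) 1) (η : ℝ) :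
    ⟪b, x - (1 + η) • b⟫ ≤ -η := by
  have hbb : ⟪b, b⟫ = 1 := by rw [real_inner_self_eq_norm_sq, hb]; norm_num
  have h1 := real_inner_le_norm b x
  rw [hb, one_mul] at h1
  have h2 : ‖x‖ ≤ 1 := by simpa using hx
  rw [inner_sub_right, inner_smul_right, hbb]
  linarith

omit [FiniteDimensional ℝ E] in
lemma norm_shift {b x : E} (hb : ‖b‖ = 1) {η : ℝ} (hη : 0 ≤ η) :
    dist x b - η ≤ ‖x - (1 + η) • b‖ ∧ ‖x - (1 + η) • b‖ ≤ dist x b + η := by
  have h1 : x - (1 + η) • b = (x - b) - η • b := by module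
  have h2 : ‖η • b‖ = η := by rw [norm_smul, hb, mul_one, Real.norm_eq_abs, abs_of_nonneg hη]
  rw [h1, dist_eq_norm]
  constructor
  · have := norm_sub_norm_le (x - b) (η • b)
    linarith
  · have := norm_sub_le (x - b) (η • b)
    linarith

lemma add_lemma {L L' : ℝ} (hL : 0 ≤ L) (hLL : L < L') {f : E → E} (hf : Inv L f) {b : E}
    (hb : ‖b‖ = 1) (Θ : E → E) (hΘ : ∀ y, ⟪b, y⟫ < 0 → ContDiffAt ℝ 1 Θ y) {c ρ0 : ℝ}
    (hc : 0 < c) (hρ0 : 0 < ρ0)
    (hA : ∀ t : ℝ, 0 ≤ t → ∀ y, ⟪b, y⟫ < 0 → ‖y‖ ≤ ρ0 →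
      ∃ m, c ≤ m ∧ Bnd m L (fderiv ℝ f b + t • fderiv ℝ Θ y))
    (hbd : ∀ r, 0 < r → ∃ C, ∀ y, ⟪b, y⟫ < 0 → r ≤ ‖y‖ → ‖y‖ ≤ ρ0 → ‖Θ y‖ ≤ C)
    {ρ : ℝ} (hρ : 0 < ρ) :
    ∃ χ : E → ℝ, ∃ δ0 η0 : ℝ, 0 < δ0 ∧ 0 < η0 ∧ (∀ x, 0 ≤ χ x ∧ χ x ≤ 1) ∧ χ b = 1 ∧
      (∀ x, χ x ≠ 0 → dist x b < ρ ∧ dist x b + η0 ≤ ρ0) ∧
      ∀ δ η : ℝ, 0 < δ → δ ≤ δ0 → 0 < η → η ≤ η0 →
        Inv L' (fun x => f x + (δ * χ x) • Θ (x - (1 + η) • b)) ∧
        fderiv ℝ (fun x => f x + (δ * χ x) • Θ (x - (1 + η) • b)) b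
          = fderiv ℝ f b + δ • fderiv ℝ Θ ((-η) • b) := by
  obtain ⟨ε, hε, hpert⟩ := perturb (E := E) hL hLL
  have hbB : b ∈ closedBall (0 : E) 1 := by simp [hb]
  have hcont : ContinuousAt (fderiv ℝ f) b := (hf b hbB).1.continuousAt_fderiv one_ne_zero
  obtain ⟨ρ1, hρ1, hρ1'⟩ := Metric.continuousAt_iff.1 hcont (ε * c / 2) (by positivity)
  set ρ' := min (min ρ ρ1) (ρ0 / 2) with hρ'
  have hρ'0 : 0 < ρ' := by positivity
  have hρ'1 : ρ' ≤ ρ := (min_le_left _ _).trans (min_le_left _ _)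
  have hρ'2 : ρ' ≤ ρ1 := (min_le_left _ _).trans (min_le_right _ _)
  have hρ'3 : ρ' ≤ ρ0 / 2 := min_le_right _ _
  let χ : ContDiffBump b := ⟨ρ' / 2, ρ', by positivity, by linarith⟩
  have hχ1 : ContDiff ℝ 1 χ := χ.contDiff
  have hχd : Differentiable ℝ χ := hχ1.differentiable one_ne_zero
  obtain ⟨Cχ, hCχ⟩ : ∃ C, ∀ x, ‖fderiv ℝ χ x‖ ≤ C :=
    (hχ1.continuous_fderiv one_ne_zero).bounded_above_of_compact_support
      (χ.hasCompactSupport.fderiv ℝ)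
  have hCχ0 : 0 ≤ Cχ := (norm_nonneg _).trans (hCχ b)
  obtain ⟨C, hC⟩ := hbd (ρ' / 4) (by positivity)
  have hzero : ∀ x, ρ' ≤ dist x b → χ x = 0 := fun x hx => χ.zero_of_le_dist hx
  have hone : ∀ x, dist x b ≤ ρ' / 2 → χ x = 1 := fun x hx =>
    χ.one_of_mem_closedBall (by simpa using hx)
  have hD0 : ∀ x, ρ' ≤ dist x b → fderiv ℝ χ x = 0 := by
    intro x hx
    apply IsLocalMin.fderiv_eq_zero
    refine Filter.Eventually.of_forall fun z => ?_
    rw [hzero x hx]; exact χ.nonneg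
  have hD1 : ∀ x, dist x b ≤ ρ' / 2 → fderiv ℝ χ x = 0 := by
    intro x hx
    apply IsLocalMax.fderiv_eq_zero
    refine Filter.Eventually.of_forall fun z => ?_
    rw [hone x hx]; exact χ.le_one
  refine ⟨χ, ε * c / (2 * (Cχ * |C| + 1)), ρ' / 4, by positivity, by positivity,
    fun x => ⟨χ.nonneg, χ.le_one⟩, hone b (by simp; positivity), ?_, ?_⟩
  · intro x hx
    have : dist x b < ρ' := by
      by_contra h
      exact hx (hzero x (not_lt.1 h))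
    constructor <;> linarith
  intro δ η hδ hδ0 hη hη0
  have hneg : ∀ x ∈ closedBall (0 : E) 1, ⟪b, x - (1 + η) • b⟫ < 0 := fun x hx =>
    lt_of_le_of_lt (inner_shift hb hx η) (by linarith)
  have hsh : ∀ x ∈ closedBall (0 : E) 1, ContDiffAt ℝ 1 (fun x => Θ (x - (1 + η) • b)) x :=
    fun x hx => (hΘ _ (hneg x hx)).comp x (contDiffAt_id.sub contDiffAt_const)
  have hder : ∀ x ∈ closedBall (0 : E) 1,
      fderiv ℝ (fun x => f x + (δ * χ x) • Θ (x - (1 + η) • b)) x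
        = fderiv ℝ f x + ((δ * χ x) • fderiv ℝ Θ (x - (1 + η) • b)
          + (δ • fderiv ℝ χ x).smulRight (Θ (x - (1 + η) • b))) := by
    intro x hx
    have h1 : HasFDerivAt f (fderiv ℝ f x) x :=
      ((hf x hx).1.differentiableAt one_ne_zero).hasFDerivAt
    have h2 : HasFDerivAt (fun x => δ * χ x) (δ • fderiv ℝ χ x) x :=
      (hχd x).hasFDerivAt.const_mul δ
    have h3 : HasFDerivAt (fun x => Θ (x - (1 + η) • b)) (fderiv ℝ Θ (x - (1 + η) • b)) x := by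
      have h4 := ((hΘ _ (hneg x hx)).differentiableAt one_ne_zero).hasFDerivAt
      have h5 := h4.comp x ((hasFDerivAt_id x).sub_const ((1 + η) • b))
      simpa [Function.comp_def] using h5
    exact (h1.add (h2.smul h3)).fderiv
  constructor
  · intro x hx
    refine ⟨(hf x hx).1.add ((contDiffAt_const.mul hχ1.contDiffAt).smul (hsh x hx)), ?_⟩
    rw [hder x hx]
    by_cases hfar : ρ' ≤ dist x b
    · rw [hzero x hfar, hD0 x hfar]
      simpa using (hf x hx).2.mono hLL.le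
    push Not at hfar
    obtain ⟨hn1, hn2⟩ := norm_shift (x := x) hb hη.le
    obtain ⟨m, hcm, hm⟩ := hA (δ * χ x) (mul_nonneg hδ.le χ.nonneg) _ (hneg x hx) (by linarith)
    refine hpert m c _ _ hc hcm hm ?_
    have e1 : fderiv ℝ f x + ((δ * χ x) • fderiv ℝ Θ (x - (1 + η) • b)
          + (δ • fderiv ℝ χ x).smulRight (Θ (x - (1 + η) • b)))
          - (fderiv ℝ f b + (δ * χ x) • fderiv ℝ Θ (x - (1 + η) • b))
        = (fderiv ℝ f x - fderiv ℝ f b) + (δ • fderiv ℝ χ x).smulRight (Θ (x - (1 + η) • b)) := by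
      abel
    rw [e1]
    have e2 : ‖fderiv ℝ f x - fderiv ℝ f b‖ ≤ ε * c / 2 := by
      have := hρ1' (x := x) (by linarith)
      rw [dist_eq_norm] at this
      exact this.le
    have e3 : ‖(δ • fderiv ℝ χ x).smulRight (Θ (x - (1 + η) • b))‖ ≤ ε * c / 2 := by
      by_cases hnear : dist x b ≤ ρ' / 2
      · rw [hD1 x hnear]
        simp
        positivity
      push Not at hnear
      rw [ContinuousLinearMap.norm_smulRight_apply, norm_smul, Real.norm_eq_abs, abs_of_pos hδ]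
      have h6 : ‖Θ (x - (1 + η) • b)‖ ≤ |C| :=
        (hC _ (hneg x hx) (by linarith) (by linarith)).trans (le_abs_self C)
      have h7 : δ * ‖fderiv ℝ χ x‖ * ‖Θ (x - (1 + η) • b)‖ ≤ δ * Cχ * |C| := by
        have := hCχ x
        gcongr
      have h8 : δ * (2 * (Cχ * |C| + 1)) ≤ ε * c := by
        rwa [le_div_iff₀ (by positivity)] at hδ0
      nlinarith
    exact (norm_add_le _ _).trans (by linarith)
  · rw [hder b hbB, hone b (by simp; positivity), hD1 b (by simp; positivity)]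
    have : b - (1 + η) • b = (-η) • b := by module
    rw [this]
    simp

end Pool.Agent.Lib.MP_ec86f1_an
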