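import Mathlib

set_option autoImplicit false

open scoped Topology ContDiff
open Metric Filter MeasureTheory

namespace Pool.Agent.Lib.MP_ec86f1_an

variable {E : Type} [NormedAddCommGroup E] [NormedSpace ℝ E] [MeasurableSpace E]

/-- `g` is the distributional derivative of `f` on `D` -/
def IsWeakDeriv (μ : Measure E) (D : Set E) (f : E → E) (g : E → E →L[ℝ] E) : Prop :=
  ∀ φ : E → ℝ, ContDiff ℝ ∞ φ → HasCompactSupport φ → tsupport φ ⊆ D → ∀ v : E,
    ∫ x in D, fderiv ℝ φ x v • f x ∂μ = -∫ x in D, φ x • g x v ∂μ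

/-- continuous, in the local Sobolev class `W^{1,n}`, with the distortion inequality a.e. -/
def IsQuasiregularOn (μ : Measure E) (n : ℕ) (D : Set E) (f : E → E) : Prop :=
  ContinuousOn f D ∧ ∃ g : E → E →L[ℝ] E, IsWeakDeriv μ D f g ∧
    (∀ C : Set E, C ⊆ D → IsCompact C → MemLp f n (μ.restrict C) ∧ MemLp g n (μ.restrict C)) ∧
    ∃ K : ℝ, 1 ≤ K ∧ ∀ᵐ x ∂(μ.restrict D), ‖g x‖ ^ n ≤ K * (g x).det

/-- at no point of the unit sphere does `f` have a limit, finite or infinite, from the ball -/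
def HasNaturalBoundary (f : E → E) : Prop :=
  ∀ b ∈ sphere (0 : E) 1, ¬ ∃ l : OnePoint E,
    Tendsto (fun x => (f x : OnePoint E)) (𝓝[ball (0 : E) 1] b) (𝓝 l)

/-- `f` is `C^1` in the unit ball, with positive Jacobian and distortion at most `K` everywhere -/
def SmoothDistortion (n : ℕ) (K : ℝ) (f : E → E) : Prop :=
  ContDiffOn ℝ 1 f (ball (0 : E) 1) ∧ ∀ x ∈ ball (0 : E) 1,
    0 < (fderiv ℝ f x).det ∧ ‖fderiv ℝ f x‖ ^ n ≤ K * (fderiv ℝ f x).det

end Pool.Agent.Lib.MP_ec86f1_an
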