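import Pool.Agent.Lib.MP_ec86f1_an.Stage

set_option autoImplicit false

open scoped RealInnerProductSpace Topology
open Metric Filter

namespace Pool.Agent.Lib.MP_ec86f1_an

lemma dep_choice {α : Type*} (P : ℕ → α → Prop) (R : ℕ → α → α → Prop) (a0 : α) (h0 : P 0 a0)
    (hstep : ∀ k a, P k a → ∃ a', P (k + 1) a' ∧ R k a a') :
    ∃ u : ℕ → α, u 0 = a0 ∧ ∀ k, P k (u k) ∧ R k (u k) (u (k + 1)) := by
  choose g hg using hstep
  let v : ∀ k, {a // P k a} := fun k =>
    Nat.rec ⟨a0, h0⟩ (fun k a => ⟨g k a.1 a.2, (hg k a.1 a.2).1⟩) k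
  exact ⟨fun k => (v k).1, rfl, fun k => ⟨(v k).2, (hg k (v k).1 (v k).2).2⟩⟩

variable {E : Type*} [NormedAddCommGroup E] [InnerProductSpace ℝ E] [FiniteDimensional ℝ E]

theorem exists_map (h3 : 3 ≤ Module.finrank ℝ E) :
    ∃ F : E → E, (∀ x ∈ ball (0 : E) 1, ContDiffAt ℝ 1 F x ∧ Ratio 4 (fderiv ℝ F x) ∧ ‖F x‖ ≤ 2) ∧
      fderiv ℝ F 0 = ContinuousLinearMap.id ℝ E ∧
      ∀ b ∈ sphere (0 : E) 1, ∀ δ > 0, ∃ x1 ∈ ball (0 : E) 1, ∃ x2 ∈ ball (0 : E) 1,
        dist x1 b < δ ∧ dist x2 b < δ ∧ 1 / 2 ≤ ‖F x1 - F x2‖ := by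
  classical
  have : Nontrivial E := (Module.finrank_pos_iff (R := ℝ)).1 (by omega)
  have : Nonempty (sphere (0 : E) 1) := (NormedSpace.sphere_nonempty.2 zero_le_one).to_subtype
  let β : ℕ → E := fun k => (TopologicalSpace.denseSeq (sphere (0 : E) 1) (Nat.unpair k).1 : E)
  have hβ : ∀ k, ‖β k‖ = 1 := fun k => by
    exact mem_sphere_zero_iff_norm.1
      (TopologicalSpace.denseSeq (sphere (0 : E) 1) (Nat.unpair k).1).2
  let q : ℕ → ℝ := fun k => 1 / ((k : ℝ) + 2)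
  have hq0 : ∀ k, 0 < q k := fun k => by positivity
  have hq1 : ∀ k, q (k + 1) < q k := fun k => by
    apply one_div_lt_one_div_of_lt (by positivity)
    push_cast; linarith
  have hq2 : ∀ k, q k ≤ 1 / 2 := fun k => by
    apply one_div_le_one_div_of_le (by positivity)
    have : (0 : ℝ) ≤ k := Nat.cast_nonneg k
    linarith
  have hq3 : ∀ δ > 0, ∃ K, ∀ k ≥ K, q k < δ := by
    intro δ hδ
    obtain ⟨K, hK⟩ := exists_nat_one_div_lt hδ
    refine ⟨K, fun k hk => lt_of_le_of_lt ?_ hK⟩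
    apply one_div_le_one_div_of_le (by positivity)
    have : (K : ℝ) ≤ k := Nat.cast_le.2 hk
    linarith
  have hq4 : q 0 = 1 / 2 := by simp [q]
  clear_value q
  obtain ⟨u, hu0, hu⟩ := dep_choice (α := (E → E) × ℝ)
    (fun k a => Inv (4 - q k) a.1 ∧ (∀ x ∈ closedBall (0 : E) 1, ‖a.1 x‖ ≤ 2 - q k) ∧
      1 - q k ≤ a.2 ∧ a.2 < 1)
    (fun k a a' => a.2 ≤ a'.2 ∧ (∀ x, ‖x‖ ≤ a.2 → a'.1 x = a.1 x) ∧
      ∃ x1 x2 : E, ‖x1‖ ≤ a'.2 ∧ ‖x2‖ ≤ a'.2 ∧ dist x1 (β k) ≤ q k ∧ dist x2 (β k) ≤ q k ∧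
        1 / 2 ≤ ‖a'.1 x1 - a'.1 x2‖) (id, 1 / 2)
    (by
      refine ⟨fun x _ => ⟨contDiffAt_id, 1, one_pos, fun v => ?_⟩, fun x hx => ?_, ?_, ?_⟩
      · have := hq2 0
        have := norm_nonneg v
        simp only [fderiv_id, ContinuousLinearMap.id_apply]
        constructor <;> nlinarith
      · have := hq2 0
        have : ‖x‖ ≤ 1 := by simpa using hx
        simp only [id]
        linarith
      · rw [hq4]; norm_num
      · norm_num)
    (by
      rintro k ⟨f, s⟩ ⟨h1, h2, h4, h5⟩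
      simp only at h1 h2 h4 h5
      have := hq1 k
      have := hq2 k
      have := hq0 (k + 1)
      obtain ⟨f', i1, i2, i3, x1, x2, j1, j2, j3, j4, j5⟩ := stage h3 (L := 4 - q k)
        (L' := 4 - q (k + 1)) (M := 2 - q k) (by linarith) (by linarith) (by linarith) h1 h2
        (hβ k) (ρ := 1 - s) (ε := q k - q (k + 1)) (by linarith) (by linarith)
      refine ⟨(f', max (max s (1 - q (k + 1))) (max ‖x1‖ ‖x2‖)), ⟨i1, fun x hx => ?_, ?_, ?_⟩,
        ?_, ?_, x1, x2, ?_, ?_, by linarith, by linarith, j5⟩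
      · linarith [i2 x hx]
      · exact (le_max_right _ _).trans (le_max_left _ _)
      · exact max_lt (max_lt h5 (by linarith)) (max_lt j1 j2)
      · exact (le_max_left _ _).trans (le_max_left _ _)
      · intro x hx
        apply i3
        have := norm_sub_norm_le (β k) x
        rw [hβ, ← dist_eq_norm, dist_comm] at this
        simp only at hx
        linarith
      · exact (le_max_left _ _).trans (le_max_right _ _)
      · exact (le_max_right _ _).trans (le_max_right _ _))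
  have hmono : Monotone fun k => (u k).2 := monotone_nat_of_le_succ fun k => (hu k).2.1
  have hstab : ∀ k j, k ≤ j → ∀ x, ‖x‖ ≤ (u k).2 → (u j).1 x = (u k).1 x := by
    intro k j hkj x hx
    induction j, hkj using Nat.le_induction with
    | base => rfl
    | succ j hkj ih => rw [(hu j).2.2.1 x (hx.trans (hmono hkj)), ih]
  let F : E → E := fun x => if h : ∃ k, ‖x‖ ≤ (u k).2 then (u h.choose).1 x else 0
  have hF : ∀ k x, ‖x‖ ≤ (u k).2 → F x = (u k).1 x := by
    intro k x hx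
    have h : ∃ k, ‖x‖ ≤ (u k).2 := ⟨k, hx⟩
    simp only [F, dif_pos h]
    rw [← hstab _ _ (le_max_left h.choose k) x h.choose_spec, hstab _ _ (le_max_right _ k) x hx]
  have hFe : ∀ k x, ‖x‖ < (u k).2 → F =ᶠ[𝓝 x] (u k).1 := by
    intro k x hx
    filter_upwards [(isOpen_lt continuous_norm continuous_const).mem_nhds hx] with z hz
    exact hF k z (le_of_lt hz)
  refine ⟨F, fun x hx => ?_, ?_, fun b hb δ hδ => ?_⟩
  · have hx1 : ‖x‖ < 1 := by simpa using hx
    obtain ⟨k, hk⟩ := hq3 (1 - ‖x‖) (by linarith)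
    have hk' : ‖x‖ < (u k).2 := by linarith [hk k le_rfl, (hu k).1.2.2.1]
    have he := hFe k x hk'
    obtain ⟨g1, g2⟩ := (hu k).1.1 x (ball_subset_closedBall hx)
    refine ⟨g1.congr_of_eventuallyEq he, ?_, ?_⟩
    · rw [he.fderiv_eq]; exact g2.mono (by linarith [hq0 k])
    · rw [hF k x hk'.le]
      linarith [(hu k).1.2.1 x (ball_subset_closedBall hx), hq0 k]
  · have he := hFe 0 0 (by rw [hu0]; simp)
    rw [he.fderiv_eq, hu0]
    simp
  · obtain ⟨K, hK⟩ := hq3 (δ / 2) (by linarith)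
    obtain ⟨j, hj⟩ := (TopologicalSpace.denseRange_denseSeq (sphere (0 : E) 1)).exists_dist_lt
      ⟨b, hb⟩ (show 0 < δ / 2 by linarith)
    set k := Nat.pair j K with hk
    have hβk : dist b (β k) < δ / 2 := by
      simp only [β, hk, Nat.unpair_pair]
      exact hj
    have hqk := hK k (Nat.right_le_pair j K)
    obtain ⟨x1, x2, j1, j2, j3, j4, j5⟩ := (hu k).2.2.2
    have hs := (hu (k + 1)).1.2.2.2
    rw [dist_comm] at hβk
    refine ⟨x1, by simp; linarith, x2, by simp; linarith, ?_, ?_, ?_⟩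
    · linarith [dist_triangle x1 (β k) b]
    · linarith [dist_triangle x2 (β k) b]
    · rw [hF _ x1 j1, hF _ x2 j2]; exact j5

omit [FiniteDimensional ℝ E] in
theorem det_pos {F : E → E} (hF : ∀ x ∈ ball (0 : E) 1, ContDiffAt ℝ 1 F x)
    (hd : ∀ x ∈ ball (0 : E) 1, (fderiv ℝ F x).det ≠ 0)
    (h0 : fderiv ℝ F 0 = ContinuousLinearMap.id ℝ E) :
    ∀ x ∈ ball (0 : E) 1, 0 < (fderiv ℝ F x).det := by
  intro x hx
  by_contra hneg
  have hc : ContinuousOn (fun x => (fderiv ℝ F x).det) (ball (0 : E) 1) := fun z hz =>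
    (ContinuousLinearMap.continuous_det.continuousAt.comp
      ((hF z hz).continuousAt_fderiv one_ne_zero)).continuousWithinAt
  have h1 : (fderiv ℝ F 0).det = 1 := by
    rw [h0]; exact LinearMap.det_id
  obtain ⟨z, hz, hz0⟩ := (convex_ball (0 : E) 1).isPreconnected.intermediate_value hx
    (mem_ball_self one_pos) hc (show (0 : ℝ) ∈ Set.Icc _ _ from ⟨not_lt.1 hneg, by simp [h1]⟩)
  exact hd z hz hz0

end Pool.Agent.Lib.MP_ec86f1_an
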