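import Pool.Agent.Lib.MP_ec86f1_an.Defs
import Pool.Agent.Lib.MP_ec86f1_an.Limit

set_option autoImplicit false

open scoped Topology ContDiff
open Metric Filter MeasureTheory

namespace Pool.Agent.Lib.MP_ec86f1_an



lemma memLp_of_continuousOn {E G : Type} [NormedAddCommGroup E] [MeasurableSpace E]
    [BorelSpace E] [SecondCountableTopology E] [NormedAddCommGroup G] (μ : Measure E)
    [IsFiniteMeasureOnCompacts μ]
    {h : E → G} {C : Set E} (hC : IsCompact C) (hh : ContinuousOn h C) (p : ENNReal) :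
    MemLp h p (μ.restrict C) := by
  have : IsFiniteMeasure (μ.restrict C) := isFiniteMeasure_restrict.2 hC.measure_lt_top.ne
  obtain ⟨M, hM⟩ := hC.exists_bound_of_continuousOn hh
  refine MemLp.of_bound (hh.aestronglyMeasurable hC.measurableSet) M ?_
  exact (ae_restrict_iff' hC.measurableSet).2 (Eventually.of_forall hM)

lemma qr_of_smooth {E : Type} [NormedAddCommGroup E] [NormedSpace ℝ E] [FiniteDimensional ℝ E]
    [MeasurableSpace E] [BorelSpace E] (μ : Measure E) [μ.IsAddHaarMeasure] {n : ℕ} {K : ℝ}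
    (hK : 1 ≤ K) {f : E → E} (hf : SmoothDistortion n K f) :
    IsQuasiregularOn μ n (ball (0 : E) 1) f := by
  obtain ⟨h1, h2⟩ := hf
  have hat : ∀ x ∈ ball (0 : E) 1, ContDiffAt ℝ 1 f x := fun x hx =>
    h1.contDiffAt (isOpen_ball.mem_nhds hx)
  have hc : ContinuousOn f (ball (0 : E) 1) := h1.continuousOn
  have hc' : ContinuousOn (fderiv ℝ f) (ball (0 : E) 1) := fun x hx =>
    ((hat x hx).continuousAt_fderiv one_ne_zero).continuousWithinAt
  refine ⟨hc, fderiv ℝ f, ?_, fun C hC hC' => ⟨memLp_of_continuousOn μ hC' (hc.mono hC) _,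
    memLp_of_continuousOn μ hC' (hc'.mono hC) _⟩, K, hK, ?_⟩
  · intro φ hφ hφc hφs v
    have hφ1 : ContDiff ℝ 1 φ := hφ.of_le (by exact_mod_cast le_top)
    have hint : ∀ (a : E → ℝ) (w : E → E), Continuous a → Function.support a ⊆ tsupport φ →
        ContinuousOn w (ball (0 : E) 1) → Integrable (fun x => a x • w x) μ := by
      intro a w ha has hw
      have h3 : IntegrableOn (fun x => a x • w x) (tsupport φ) μ :=
        (ha.continuousOn.smul (hw.mono hφs)).integrableOn_compact hφc
      refine (integrableOn_iff_integrable_of_support_subset ?_).1 h3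
      intro x hx
      apply has
      intro h0
      exact hx (by simp [h0])
    have hs1 : Function.support (fun x => fderiv ℝ φ x v) ⊆ tsupport φ := by
      intro x hx
      apply support_fderiv_subset ℝ
      intro h0
      exact hx (by simp [h0])
    have key := integral_smul_fderiv_eq_neg_fderiv_smul_of_integrable (μ := μ) (f := φ) (g := f)
      (v := v)
      (hint _ _ ((hφ1.continuous_fderiv one_ne_zero).clm_apply continuous_const) hs1 hc)
      (hint _ _ hφ.continuous (subset_tsupport φ) (hc'.clm_apply continuousOn_const))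
      (hint _ _ hφ.continuous (subset_tsupport φ) hc)
      (fun x _ => hφ1.differentiable one_ne_zero x)
      (fun x hx => (hat x (hφs hx)).differentiableAt one_ne_zero)
    rw [setIntegral_eq_integral_of_forall_compl_eq_zero,
      setIntegral_eq_integral_of_forall_compl_eq_zero, key, neg_neg]
    · intro x hx
      rw [image_eq_zero_of_notMem_tsupport (fun h => hx (hφs h)), zero_smul]
    · intro x hx
      have : fderiv ℝ φ x v = 0 := by
        by_contra h
        exact hx (hφs (hs1 h))
      rw [this, zero_smul]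
  · exact (ae_restrict_iff' measurableSet_ball).2 (Eventually.of_forall fun x hx => (h2 x hx).2)

theorem main_thm : ∀ n : ℕ, 3 ≤ n →
    ∃ f : EuclideanSpace ℝ (Fin n) → EuclideanSpace ℝ (Fin n),
      IsQuasiregularOn volume n (ball 0 1) f ∧ Bornology.IsBounded (f '' ball 0 1) ∧
      HasNaturalBoundary f ∧ SmoothDistortion n (4 ^ n) f := by
  intro n hn
  have hfin : Module.finrank ℝ (EuclideanSpace ℝ (Fin n)) = n := by simp
  obtain ⟨F, h1, h2, h3⟩ := exists_map (E := EuclideanSpace ℝ (Fin n)) (by rwa [hfin])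
  have hdet := det_pos (fun x hx => (h1 x hx).1)
    (fun x hx => ((h1 x hx).2.1.norm_pow_le (by norm_num)).1) h2
  have hS : SmoothDistortion n (4 ^ n) F := by
    refine ⟨fun x hx => (h1 x hx).1.contDiffWithinAt, fun x hx => ⟨hdet x hx, ?_⟩⟩
    have := ((h1 x hx).2.1.norm_pow_le (by norm_num)).2
    rwa [hfin, abs_of_pos (hdet x hx)] at this
  refine ⟨F, qr_of_smooth _ (one_le_pow₀ (by norm_num)) hS, ?_, ?_, hS⟩
  · refine (isBounded_closedBall (x := 0) (r := 2)).subset ?_
    rintro _ ⟨x, hx, rfl⟩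
    simpa using (h1 x hx).2.2
  · rintro b hb ⟨l, hl⟩
    induction l using OnePoint.rec with
    | infty =>
      have hK : IsCompact (closedBall (0 : EuclideanSpace ℝ (Fin n)) 2) := isCompact_closedBall _ _
      have hmem : ((↑) '' closedBall (0 : EuclideanSpace ℝ (Fin n)) 2 :
          Set (OnePoint (EuclideanSpace ℝ (Fin n))))ᶜ ∈ 𝓝 (OnePoint.infty) :=
        (OnePoint.isOpen_compl_image_coe.2 ⟨isClosed_closedBall, hK⟩).mem_nhds (by simp)
      obtain ⟨δ, hδ, hδ'⟩ := Metric.mem_nhdsWithin_iff.1 (hl hmem)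
      obtain ⟨x1, hx1, -, -, j1, -, -⟩ := h3 b hb δ hδ
      exact hδ' ⟨j1, hx1⟩ ⟨F x1, by simpa using (h1 x1 hx1).2.2, rfl⟩
    | coe p =>
      have hl' : Tendsto F (𝓝[ball 0 1] b) (𝓝 p) :=
        OnePoint.isOpenEmbedding_coe.tendsto_nhds_iff.2 hl
      obtain ⟨δ, hδ, hδ'⟩ := Metric.mem_nhdsWithin_iff.1
        (hl' (ball_mem_nhds p (show (0 : ℝ) < 1 / 4 by norm_num)))
      obtain ⟨x1, hx1, x2, hx2, j1, j2, j3⟩ := h3 b hb δ hδ
      have a1 : dist (F x1) p < 1 / 4 := hδ' ⟨j1, hx1⟩
      have a2 : dist (F x2) p < 1 / 4 := hδ' ⟨j2, hx2⟩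
      have := dist_triangle_right (F x1) (F x2) p
      rw [dist_eq_norm (F x1) (F x2)] at this
      linarith

end Pool.Agent.Lib.MP_ec86f1_an
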