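import Pool.Agent.Lib.MP_ec86f1_an.Lin

set_option autoImplicit false

open scoped RealInnerProductSpace

namespace Pool.Agent.Lib.MP_ec86f1_an

variable {E : Type*} [NormedAddCommGroup E] [InnerProductSpace ℝ E]

lemma hasFDerivAt_nrm {y : E} (hy : y ≠ 0) :
    HasFDerivAt (fun z : E => ‖z‖) (‖y‖⁻¹ • innerSL ℝ y) y := by
  have h0 : ‖y‖ ≠ 0 := norm_ne_zero_iff.2 hy
  have h1 : HasFDerivAt (fun z : E => ‖z‖ ^ 2) (2 • innerSL ℝ y) y :=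
    (hasStrictFDerivAt_norm_sq y).hasFDerivAt
  have h2 := h1.sqrt (pow_ne_zero 2 h0)
  have h3 : (fun z : E => Real.sqrt (‖z‖ ^ 2)) = fun z => ‖z‖ := by
    funext z; exact Real.sqrt_sq (norm_nonneg _)
  rw [h3] at h2
  refine h2.congr_fderiv ?_
  ext v
  simp only [Real.sqrt_sq (norm_nonneg y), smul_apply, smul_eq_mul, nsmul_eq_mul]
  field_simp
  simp

lemma hasFDerivAt_lognrm {y : E} (hy : y ≠ 0) :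
    HasFDerivAt (fun z : E => Real.log ‖z‖) ((‖y‖ ^ 2)⁻¹ • innerSL ℝ y) y := by
  have h0 : ‖y‖ ≠ 0 := norm_ne_zero_iff.2 hy
  refine ((hasFDerivAt_nrm hy).log h0).congr_fderiv ?_
  ext v
  simp only [smul_apply, smul_eq_mul]
  field_simp

/-- the logarithmic twisting term -/
noncomputable def Tw (W : E →L[ℝ] E) (y : E) : E := (-Real.log ‖y‖) • W y

lemma contDiffAt_Tw (W : E →L[ℝ] E) {y : E} (hy : y ≠ 0) : ContDiffAt ℝ 1 (Tw W) y := by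
  unfold Tw
  have h1 : ContDiffAt ℝ 1 (fun z : E => ‖z‖) y := contDiffAt_norm ℝ hy
  exact ((h1.log (norm_ne_zero_iff.2 hy)).neg).smul W.contDiff.contDiffAt

lemma fderiv_Tw (W : E →L[ℝ] E) {y : E} (hy : y ≠ 0) (v : E) :
    fderiv ℝ (Tw W) y v = (-Real.log ‖y‖) • W v - (⟪y, v⟫ / ‖y‖ ^ 2) • W y := by
  have h := ((hasFDerivAt_lognrm hy).neg).smul W.hasFDerivAt
  have h2 : Tw W = ((-fun z : E => Real.log ‖z‖) • (W : E → E)) := by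
    funext z; simp [Tw]
  rw [h2, h.fderiv]
  simp [div_eq_inv_mul, sub_eq_add_neg]

lemma Tw_err (W : E →L[ℝ] E) (hW : ∀ v, ‖W v‖ = ‖v‖) {y : E} (hy : y ≠ 0) (v : E) :
    ‖(⟪y, v⟫ / ‖y‖ ^ 2) • W y‖ ≤ ‖v‖ := by
  have h0 : 0 < ‖y‖ := norm_pos_iff.2 hy
  rw [norm_smul, hW, Real.norm_eq_abs, abs_div, abs_of_nonneg (sq_nonneg ‖y‖)]
  have := abs_real_inner_le_norm y v
  rw [div_mul_eq_mul_div, div_le_iff₀ (by positivity)]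
  nlinarith [norm_nonneg v]

lemma norm_Tw_le (W : E →L[ℝ] E) (hW : ∀ v, ‖W v‖ = ‖v‖) {y : E} (hy1 : ‖y‖ ≤ 1) :
    ‖Tw W y‖ ≤ 1 := by
  unfold Tw
  rw [norm_smul, hW, norm_neg, Real.norm_eq_abs]
  rcases eq_or_ne y 0 with rfl | hy
  · simp
  have h0 : 0 < ‖y‖ := norm_pos_iff.2 hy
  have := Real.abs_log_mul_self_lt ‖y‖ h0 hy1
  rw [abs_mul, abs_of_pos h0] at this
  exact this.le

/-- the tentacle term -/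
noncomputable def Tent (b : E) (y : E) : E :=
  (‖y‖ - ⟪b, y⟫)⁻¹ • (y - ⟪b, y⟫ • b) - Real.log ‖y‖ • b

lemma ne_zero_of_inner_neg {b y : E} (h : ⟪b, y⟫ < 0) : y ≠ 0 := by
  rintro rfl; simp at h

lemma contDiffAt_Tent (b : E) {y : E} (h : ⟪b, y⟫ < 0) : ContDiffAt ℝ 1 (Tent b) y := by
  have hy := ne_zero_of_inner_neg h
  unfold Tent
  have h1 : ContDiffAt ℝ 1 (fun z : E => ‖z‖) y := contDiffAt_norm ℝ hy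
  have h2 : ContDiffAt ℝ 1 (fun z : E => ⟪b, z⟫) y := (innerSL ℝ b).contDiff.contDiffAt
  have h3 : ‖y‖ - ⟪b, y⟫ ≠ 0 := by have := norm_nonneg y; linarith
  exact (((h1.sub h2).inv h3).smul (contDiffAt_id.sub (h2.smul contDiffAt_const))).sub
    ((h1.log (norm_ne_zero_iff.2 hy)).smul contDiffAt_const)

lemma fderiv_Tent (b : E) {y : E} (h : ⟪b, y⟫ < 0) (v : E) :
    fderiv ℝ (Tent b) y v = (‖y‖ - ⟪b, y⟫)⁻¹ • (v - ⟪b, v⟫ • b)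
      - ((⟪y, v⟫ / ‖y‖ - ⟪b, v⟫) / (‖y‖ - ⟪b, y⟫) ^ 2) • (y - ⟪b, y⟫ • b)
      - (⟪y, v⟫ / ‖y‖ ^ 2) • b := by
  have hy := ne_zero_of_inner_neg h
  have h1 := hasFDerivAt_nrm hy
  have h2 : HasFDerivAt (fun z : E => ⟪b, z⟫) (innerSL ℝ b) y := (innerSL ℝ b).hasFDerivAt
  have h3 : ‖y‖ - ⟪b, y⟫ ≠ 0 := by have := norm_nonneg y; linarith
  have h4 := (hasFDerivAt_inv h3).comp y (h1.sub h2)
  have h5 := (h4.smul ((hasFDerivAt_id y).sub (h2.smul_const b))).sub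
    ((hasFDerivAt_lognrm hy).smul_const b)
  have h6 : HasFDerivAt (Tent b) _ y := h5
  rw [h6.fderiv]
  simp [div_eq_inv_mul, sub_eq_add_neg]
  module

lemma Tent_bounds {b : E} (hb : ‖b‖ = 1) {y : E} (h : ⟪b, y⟫ < 0) (v : E) :
    0 ≤ ⟪v, fderiv ℝ (Tent b) y v⟫ ∧ ‖y‖⁻¹ * ‖v‖ / 2 ≤ ‖fderiv ℝ (Tent b) y v‖ ∧
      ‖fderiv ℝ (Tent b) y v‖ ≤ ‖y‖⁻¹ * ‖v‖ := by
  have hy := ne_zero_of_inner_neg h
  have hr : 0 < ‖y‖ := norm_pos_iff.2 hy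
  have hbb : ⟪b, b⟫ = 1 := by rw [real_inner_self_eq_norm_sq, hb]; norm_num
  have hyy : ⟪y, y⟫ = ‖y‖ ^ 2 := real_inner_self_eq_norm_sq y
  have hvv : ⟪v, v⟫ = ‖v‖ ^ 2 := real_inner_self_eq_norm_sq v
  have hs : -‖y‖ ≤ ⟪b, y⟫ := by
    have := abs_real_inner_le_norm b y
    rw [hb, one_mul] at this
    exact (abs_le.1 this).1
  have hCS : (⟪b, v⟫ - ⟪y, v⟫ / ‖y‖ ^ 2 * ⟪b, y⟫) ^ 2 ≤ ‖v‖ ^ 2 - (⟪y, v⟫ / ‖y‖) ^ 2 := by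
    have h1 := abs_real_inner_le_norm b (v - (⟪y, v⟫ / ‖y‖ ^ 2) • y)
    rw [hb, one_mul] at h1
    have h2 : ⟪b, v - (⟪y, v⟫ / ‖y‖ ^ 2) • y⟫ ^ 2 ≤ ‖v - (⟪y, v⟫ / ‖y‖ ^ 2) • y‖ ^ 2 := by
      rw [← sq_abs]; gcongr
    rw [← real_inner_self_eq_norm_sq (v - _)] at h2
    simp only [inner_sub_left, inner_sub_right, inner_smul_left, inner_smul_right, hyy, hvv,
      conj_trivial, real_inner_comm y v] at h2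
    refine h2.trans (le_of_eq ?_)
    field_simp
    ring
  have hnorm : ‖fderiv ℝ (Tent b) y v‖ ^ 2 =
      (‖v‖ ^ 2 - (⟪y, v⟫ / ‖y‖) ^ 2) / (‖y‖ - ⟪b, y⟫) ^ 2 + (⟪y, v⟫ / ‖y‖) ^ 2 / ‖y‖ ^ 2 := by
    rw [← real_inner_self_eq_norm_sq, fderiv_Tent b h]
    simp only [inner_sub_left, inner_sub_right, inner_smul_left, inner_smul_right, hyy, hvv, hbb,
      conj_trivial, real_inner_comm y v, real_inner_comm b v, real_inner_comm b y]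
    have hD : ‖y‖ - ⟪b, y⟫ ≠ 0 := by linarith
    field_simp
    ring
  have hinner : ⟪v, fderiv ℝ (Tent b) y v⟫ =
      (-⟪b, y⟫ / ‖y‖ ^ 2) * ((⟪y, v⟫ / ‖y‖) ^ 2 - (⟪y, v⟫ / ‖y‖) *
        ((⟪b, v⟫ - ⟪y, v⟫ / ‖y‖ ^ 2 * ⟪b, y⟫) * ‖y‖ / (‖y‖ - ⟪b, y⟫)) +
        ((⟪b, v⟫ - ⟪y, v⟫ / ‖y‖ ^ 2 * ⟪b, y⟫) * ‖y‖ / (‖y‖ - ⟪b, y⟫)) ^ 2) +
      (‖v‖ ^ 2 - (⟪y, v⟫ / ‖y‖) ^ 2 - (⟪b, v⟫ - ⟪y, v⟫ / ‖y‖ ^ 2 * ⟪b, y⟫) ^ 2) /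
        (‖y‖ - ⟪b, y⟫) := by
    rw [fderiv_Tent b h]
    simp only [inner_sub_right, inner_smul_right, hvv, real_inner_comm y v, real_inner_comm b v]
    have hD : ‖y‖ - ⟪b, y⟫ ≠ 0 := by linarith
    field_simp
    ring
  set α := ⟪y, v⟫ / ‖y‖ with hα
  set w := ⟪b, v⟫ - ⟪y, v⟫ / ‖y‖ ^ 2 * ⟪b, y⟫ with hw
  set D := ‖y‖ - ⟪b, y⟫ with hD
  have hD1 : ‖y‖ ≤ D := by linarith
  have hD2 : D ≤ 2 * ‖y‖ := by linarith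
  have hD0 : 0 < D := by linarith
  have hN : 0 ≤ ‖v‖ ^ 2 - α ^ 2 := (sq_nonneg _).trans hCS
  refine ⟨?_, ?_, ?_⟩
  · rw [hinner]
    apply add_nonneg
    · apply mul_nonneg
      · apply div_nonneg <;> [linarith; positivity]
      · nlinarith [sq_nonneg (α - w * ‖y‖ / D), sq_nonneg α, sq_nonneg (w * ‖y‖ / D)]
    · apply div_nonneg <;> linarith
  · refine (pow_le_pow_iff_left₀ (by positivity) (norm_nonneg _) two_ne_zero).1 ?_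
    rw [hnorm]
    have e1 : (‖v‖ ^ 2 - α ^ 2) / (2 * ‖y‖) ^ 2 ≤ (‖v‖ ^ 2 - α ^ 2) / D ^ 2 := by gcongr
    have e2 : α ^ 2 / (2 * ‖y‖) ^ 2 ≤ α ^ 2 / ‖y‖ ^ 2 := by gcongr; linarith
    have e3 : (‖y‖⁻¹ * ‖v‖ / 2) ^ 2 = (‖v‖ ^ 2 - α ^ 2) / (2 * ‖y‖) ^ 2 + α ^ 2 / (2 * ‖y‖) ^ 2 := by
      field_simp; ring
    linarith
  · refine (pow_le_pow_iff_left₀ (norm_nonneg _) (by positivity) two_ne_zero).1 ?_
    rw [hnorm]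
    have e1 : (‖v‖ ^ 2 - α ^ 2) / D ^ 2 ≤ (‖v‖ ^ 2 - α ^ 2) / ‖y‖ ^ 2 := by gcongr
    have e3 : (‖y‖⁻¹ * ‖v‖) ^ 2 = (‖v‖ ^ 2 - α ^ 2) / ‖y‖ ^ 2 + α ^ 2 / ‖y‖ ^ 2 := by
      field_simp; ring
    linarith

lemma norm_stereo_le {b : E} (hb : ‖b‖ = 1) {y : E} (h : ⟪b, y⟫ < 0) :
    ‖(‖y‖ - ⟪b, y⟫)⁻¹ • (y - ⟪b, y⟫ • b)‖ ≤ 1 := by
  have hr : 0 ≤ ‖y‖ := norm_nonneg y
  have hD : 0 < ‖y‖ - ⟪b, y⟫ := by linarith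
  rw [norm_smul, norm_inv, Real.norm_eq_abs, abs_of_pos hD, inv_mul_le_iff₀ hD, mul_one]
  refine (norm_sub_le _ _).trans ?_
  rw [norm_smul, hb, mul_one, Real.norm_eq_abs, abs_of_neg h]
  linarith

end Pool.Agent.Lib.MP_ec86f1_an
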