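import Pool.Agent.Lib.MP_ec86f1_an.Add

set_option autoImplicit false

open scoped RealInnerProductSpace Topology
open Metric

namespace Pool.Agent.Lib.MP_ec86f1_an

variable {E : Type*} [NormedAddCommGroup E] [InnerProductSpace ℝ E]

def NearConf (A U : E →L[ℝ] E) : Prop := ∃ l : ℝ, 0 < l ∧ ∀ v, ‖A v - l • U v‖ ≤ l / 25 * ‖v‖

lemma log_big {y : E} (hy : y ≠ 0) (h : ‖y‖ ≤ Real.exp (-25)) : 25 ≤ -Real.log ‖y‖ := by
  have h0 : 0 < ‖y‖ := norm_pos_iff.2 hy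
  have := Real.log_le_log h0 h
  rw [Real.log_exp] at this
  linarith

lemma hA_polar {L m : ℝ} (hL : 3 ≤ L) {A U : E →L[ℝ] E} (hA : Bnd m L A)
    (hU : ∀ v, ‖U v‖ = ‖v‖) (hAU : ∀ v, m * ‖v‖ ^ 2 ≤ ⟪A v, U v⟫) (t : ℝ) (ht : 0 ≤ t) (y : E)
    (hy : y ≠ 0) (h : ‖y‖ ≤ Real.exp (-25)) :
    ∃ m', m ≤ m' ∧ Bnd m' L (A + t • fderiv ℝ (Tw U) y) := by
  have hl := log_big hy h
  set l := -Real.log ‖y‖ with hl'
  refine ⟨m + t * (l - 1), by nlinarith, fun v => ?_⟩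
  have h1 : (A + t • fderiv ℝ (Tw U) y) v
      = A v + (t * l) • U v - t • ((⟪y, v⟫ / ‖y‖ ^ 2) • U y) := by
    simp only [add_apply, smul_apply, fderiv_Tw U hy, ← hl']
    module
  have h2 := Tw_err U hU hy v
  set Z := (⟪y, v⟫ / ‖y‖ ^ 2) • U y with hZ
  have hv := norm_nonneg v
  rw [h1]
  constructor
  · have h3 : (m + t * l) * ‖v‖ ≤ ‖A v + (t * l) • U v‖ := by
      rcases eq_or_lt_of_le hv with h0 | h0
      · rw [← h0]; simp
      have h4 := real_inner_le_norm (A v + (t * l) • U v) (U v)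
      rw [inner_add_left, inner_smul_left, real_inner_self_eq_norm_sq, hU] at h4
      simp only [conj_trivial] at h4
      have h5 := hAU v
      have : (m + t * l) * ‖v‖ * ‖v‖ ≤ ‖A v + (t * l) • U v‖ * ‖v‖ := by nlinarith
      exact le_of_mul_le_mul_right this h0
    have h6 := norm_sub_norm_le (A v + (t * l) • U v) (t • Z)
    rw [norm_smul t, Real.norm_eq_abs, abs_of_nonneg ht] at h6
    nlinarith [mul_le_mul_of_nonneg_left h2 ht]
  · have h6 := norm_sub_le (A v + (t * l) • U v) (t • Z)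
    rw [norm_smul t, Real.norm_eq_abs, abs_of_nonneg ht] at h6
    have h7 := norm_add_le (A v) ((t * l) • U v)
    rw [norm_smul, hU, Real.norm_eq_abs, abs_of_nonneg (by positivity)] at h7
    have h8 := (hA v).2
    have h9 := mul_le_mul_of_nonneg_left h2 ht
    have h10 : t * ‖v‖ * (l + 1) ≤ t * ‖v‖ * (L * (l - 1)) := by
      apply mul_le_mul_of_nonneg_left _ (by positivity)
      nlinarith
    nlinarith

lemma hA_rot {L l0 : ℝ} (hL : 3 ≤ L) (hl0 : 0 < l0) {A U W : E →L[ℝ] E}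
    (hA : ∀ v, ‖A v - l0 • U v‖ ≤ l0 / 25 * ‖v‖)
    (hU : ∀ v, ‖U v‖ = ‖v‖) (hW : ∀ v, ‖W v‖ = ‖v‖) (hUW : ∀ v, 0 ≤ ⟪U v, W v⟫)
    (t : ℝ) (ht : 0 ≤ t) (y : E) (hy : y ≠ 0) (h : ‖y‖ ≤ Real.exp (-25)) :
    ∃ m', 2 / 5 * l0 ≤ m' ∧ Bnd m' L (A + t • fderiv ℝ (Tw W) y) := by
  have hl := log_big hy h
  set l := -Real.log ‖y‖ with hl'
  have htl : 0 ≤ t * l := by positivity
  refine ⟨2 / 5 * (l0 + t * l), by nlinarith, fun v => ?_⟩
  have h1 : (A + t • fderiv ℝ (Tw W) y) v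
      = l0 • U v + (t * l) • W v + ((A v - l0 • U v) - t • ((⟪y, v⟫ / ‖y‖ ^ 2) • W y)) := by
    simp only [add_apply, smul_apply, fderiv_Tw W hy, ← hl']
    module
  have h2 := Tw_err W hW hy v
  set Z := (⟪y, v⟫ / ‖y‖ ^ 2) • W y with hZ
  have hv := norm_nonneg v
  rw [h1]
  have hY : ‖(t * l) • W v‖ = t * l * ‖v‖ := by
    rw [norm_smul, hW, Real.norm_eq_abs, abs_of_nonneg htl]
  have := accretive (X := l0 • U v) (Y := (t * l) • W v) (Z := (A v - l0 • U v) - t • Z)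
    (N := ‖v‖) hl0.le htl hv
    (by rw [norm_smul, hU, Real.norm_eq_abs, abs_of_pos hl0])
    (by rw [hY]; nlinarith [mul_nonneg htl hv]) hY.le
    (by rw [inner_smul_left, inner_smul_right]; have := hUW v; simp only [conj_trivial]; positivity)
    (by
      refine (norm_sub_le _ _).trans ?_
      rw [norm_smul t, Real.norm_eq_abs, abs_of_nonneg ht]
      have h9 := mul_le_mul_of_nonneg_left h2 ht
      have h10 : t * ‖v‖ * 25 ≤ t * ‖v‖ * l := mul_le_mul_of_nonneg_left hl (by positivity)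
      nlinarith [hA v])
  refine ⟨this.1, this.2.trans ?_⟩
  gcongr

lemma hA_tent {L l0 : ℝ} (hL : 3 ≤ L) (hl0 : 0 < l0) {A V : E →L[ℝ] E}
    (hA : ∀ v, ‖A v - l0 • V v‖ ≤ l0 / 25 * ‖v‖) (hV : ∀ v, ‖V v‖ = ‖v‖)
    {b : E} (hb : ‖b‖ = 1) (t : ℝ) (ht : 0 ≤ t) (y : E) (hy : ⟪b, y⟫ < 0) :
    ∃ m', 2 / 5 * l0 ≤ m' ∧ Bnd m' L (A + t • fderiv ℝ (fun z => V (Tent b z)) y) := by
  have hτ : 0 ≤ t * ‖y‖⁻¹ := by positivity
  refine ⟨2 / 5 * (l0 + t * ‖y‖⁻¹), by nlinarith, fun v => ?_⟩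
  have h0 : fderiv ℝ (fun z => V (Tent b z)) y = V.comp (fderiv ℝ (Tent b) y) :=
    (V.hasFDerivAt.comp y
      ((contDiffAt_Tent b hy).differentiableAt one_ne_zero).hasFDerivAt).fderiv
  have h1 : (A + t • fderiv ℝ (fun z => V (Tent b z)) y) v
      = l0 • V v + t • V (fderiv ℝ (Tent b) y v) + (A v - l0 • V v) := by
    simp only [add_apply, smul_apply, h0, ContinuousLinearMap.comp_apply]
    module
  obtain ⟨g1, g2, g3⟩ := Tent_bounds hb hy v
  have hv := norm_nonneg v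
  have hin : ∀ x z, ⟪V x, V z⟫ = ⟪x, z⟫ := fun x z =>
    (⟨(V : E →ₗ[ℝ] E), hV⟩ : E →ₗᵢ[ℝ] E).inner_map_map x z
  rw [h1]
  have hY : ‖t • V (fderiv ℝ (Tent b) y v)‖ = t * ‖fderiv ℝ (Tent b) y v‖ := by
    rw [norm_smul, hV, Real.norm_eq_abs, abs_of_nonneg ht]
  have := accretive (X := l0 • V v) (Y := t • V (fderiv ℝ (Tent b) y v)) (Z := A v - l0 • V v)
    (N := ‖v‖) hl0.le hτ hv
    (by rw [norm_smul, hV, Real.norm_eq_abs, abs_of_pos hl0])
    (by rw [hY]; nlinarith [mul_le_mul_of_nonneg_left g2 ht])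
    (by rw [hY]; nlinarith [mul_le_mul_of_nonneg_left g3 ht])
    (by rw [inner_smul_left, inner_smul_right, hin]; simp only [conj_trivial]; positivity)
    (by nlinarith [hA v, mul_nonneg hτ hv])
  refine ⟨this.1, this.2.trans ?_⟩
  gcongr

variable [FiniteDimensional ℝ E]

lemma twist {L L' : ℝ} (hL : 0 ≤ L) (hLL : L < L') {f : E → E} (hf : Inv L f) {b : E}
    (hb : ‖b‖ = 1) (W : E →L[ℝ] E) (hW : ∀ v, ‖W v‖ = ‖v‖) {c : ℝ} (hc : 0 < c)
    (hA : ∀ t : ℝ, 0 ≤ t → ∀ y : E, y ≠ 0 → ‖y‖ ≤ Real.exp (-25) →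
      ∃ m, c ≤ m ∧ Bnd m L (fderiv ℝ f b + t • fderiv ℝ (Tw W) y))
    {ρ ε : ℝ} (hρ : 0 < ρ) (hε : 0 < ε) :
    ∃ f' : E → E, Inv L' f' ∧ (∀ x, ρ ≤ dist x b → f' x = f x) ∧
      (∀ x ∈ closedBall (0 : E) 1, ‖f' x - f x‖ ≤ ε) ∧ NearConf (fderiv ℝ f' b) W := by
  have hexp : Real.exp (-25) ≤ 1 := Real.exp_le_one_iff.2 (by norm_num)
  obtain ⟨χ, δ0, η0, hδ0, hη0, hχ, hχb, hχs, hmain⟩ := add_lemma hL hLL hf hb (Tw W)
    (fun y hy => contDiffAt_Tw W (ne_zero_of_inner_neg hy)) hc (Real.exp_pos (-25))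
    (fun t ht y hy h => hA t ht y (ne_zero_of_inner_neg hy) h)
    (fun r _ => ⟨1, fun y _ _ h => norm_Tw_le W hW (h.trans hexp)⟩) hρ
  set δ := min δ0 ε with hδ
  have hδp : 0 < δ := by positivity
  set K := 25 * (‖fderiv ℝ f b‖ + δ) / δ with hK
  set η := min η0 (Real.exp (-K)) with hη
  have hηp : 0 < η := lt_min hη0 (Real.exp_pos _)
  obtain ⟨h1, h2⟩ := hmain δ η hδp (min_le_left _ _) hηp (min_le_left _ _)
  refine ⟨_, h1, ?_, ?_, ?_⟩
  · intro x hx
    have : χ x = 0 := by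
      by_contra h
      exact absurd (hχs x h).1 (not_lt.2 hx)
    simp [this]
  · intro x _
    by_cases h : χ x = 0
    · simp [h, hε.le]
    have h3 := (norm_shift (x := x) hb hηp.le).2
    have h4 := norm_Tw_le W hW (y := x - (1 + η) • b)
      (by have := (hχs x h).2; have : η ≤ η0 := min_le_left _ _; linarith)
    rw [add_sub_cancel_left, norm_smul, Real.norm_eq_abs,
      abs_of_nonneg (mul_nonneg hδp.le (hχ x).1)]
    have h5 : δ * χ x ≤ ε := by
      have : δ ≤ ε := min_le_right _ _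
      nlinarith [(hχ x).1, (hχ x).2]
    nlinarith [mul_nonneg hδp.le (hχ x).1, norm_nonneg (Tw W (x - (1 + η) • b))]
  · rw [h2]
    have hy : (-η) • b ≠ 0 := smul_ne_zero (by linarith) (by rintro rfl; simp at hb)
    have hn : ‖(-η) • b‖ = η := by
      rw [norm_smul, hb, mul_one, norm_neg, Real.norm_eq_abs, abs_of_pos hηp]
    have hlog : K ≤ -Real.log η := by
      have := Real.log_le_log hηp (min_le_right η0 (Real.exp (-K)))
      rw [Real.log_exp] at this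
      linarith
    have hK0 : 0 < K := by positivity
    have hKδ : K * δ = 25 * (‖fderiv ℝ f b‖ + δ) := by rw [hK]; field_simp
    refine ⟨δ * -Real.log η, mul_pos hδp (by linarith), fun v => ?_⟩
    have e1 : (fderiv ℝ f b + δ • fderiv ℝ (Tw W) ((-η) • b)) v - (δ * -Real.log η) • W v
        = fderiv ℝ f b v - δ • ((⟪(-η) • b, v⟫ / ‖(-η) • b‖ ^ 2) • W ((-η) • b)) := by
      simp only [add_apply, smul_apply, fderiv_Tw W hy]
      rw [hn]
      module
    rw [e1]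
    refine (norm_sub_le _ _).trans ?_
    rw [norm_smul δ, Real.norm_eq_abs, abs_of_pos hδp]
    have e2 := Tw_err W hW hy v
    have e3 := (fderiv ℝ f b).le_opNorm v
    have e4 := mul_le_mul_of_nonneg_left e2 hδp.le
    have e5 : K * δ * ‖v‖ ≤ (-Real.log η) * δ * ‖v‖ := by gcongr
    rw [hKδ] at e5
    nlinarith

lemma tentacle {L L' : ℝ} (hL : 3 ≤ L) (hLL : L < L') {f : E → E} (hf : Inv L f) {b : E}
    (hb : ‖b‖ = 1) (V : E →L[ℝ] E) (hV : ∀ v, ‖V v‖ = ‖v‖) (hN : NearConf (fderiv ℝ f b) V)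
    {ρ ε : ℝ} (hρ : 0 < ρ) (hε : 0 < ε) :
    ∃ f' : E → E, Inv L' f' ∧ (∀ x, ρ ≤ dist x b → f' x = f x) ∧
      (∀ x ∈ closedBall (0 : E) 1, ∃ t : ℝ, 0 ≤ t ∧ t ≤ 1 ∧ ‖f' x - f x - t • V b‖ ≤ ε) ∧
      f' b = f b + V b := by
  obtain ⟨l0, hl0, hA⟩ := hN
  have hbb : ⟪b, b⟫ = 1 := by rw [real_inner_self_eq_norm_sq, hb]; norm_num
  obtain ⟨χ, δ0, η0, hδ0, hη0, hχ, hχb, hχs, hmain⟩ := add_lemma (by linarith) hLL hf hb
    (fun z => V (Tent b z))
    (fun y hy => V.contDiff.contDiffAt.comp y (contDiffAt_Tent b hy))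
    (c := 2 / 5 * l0) (by positivity) one_pos
    (fun t ht y hy _ => hA_tent hL hl0 hA hV hb t ht y hy)
    (fun r hr => ⟨1 + |Real.log r|, fun y hy h1 h2 => by
      rw [hV]
      refine (norm_sub_le _ _).trans (add_le_add (norm_stereo_le hb hy) ?_)
      rw [norm_smul, hb, mul_one, Real.norm_eq_abs,
        abs_of_nonpos (Real.log_nonpos (norm_nonneg _) h2)]
      have := Real.log_le_log hr h1
      have := neg_le_abs (Real.log r)
      linarith⟩) hρ
  set δ := min (min δ0 ε) (1 / (|Real.log η0| + 1)) with hδ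
  have hδp : 0 < δ := by positivity
  have hδ1 : δ ≤ δ0 := (min_le_left _ _).trans (min_le_left _ _)
  have hδ2 : δ ≤ ε := (min_le_left _ _).trans (min_le_right _ _)
  have hδ3 : δ ≤ 1 / (|Real.log η0| + 1) := min_le_right _ _
  set η := Real.exp (-(1 / δ)) with hη
  have hηp : 0 < η := Real.exp_pos _
  have hη1 : η ≤ η0 := by
    rw [hη, ← Real.le_log_iff_exp_le hη0]
    have h1 : |Real.log η0| + 1 ≤ 1 / δ := by
      rw [le_div_iff₀ hδp]
      rw [le_div_iff₀ (by positivity)] at hδ3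
      linarith
    have := neg_abs_le (Real.log η0)
    linarith
  have hlogη : Real.log η = -(1 / δ) := Real.log_exp _
  obtain ⟨h1, -⟩ := hmain δ η hδp hδ1 hηp hη1
  refine ⟨_, h1, ?_, ?_, ?_⟩
  · intro x hx
    have : χ x = 0 := by
      by_contra h
      exact absurd (hχs x h).1 (not_lt.2 hx)
    simp [this]
  · intro x hx
    by_cases h : χ x = 0
    · exact ⟨0, le_rfl, zero_le_one, by simp [h, hε.le]⟩
    set y := x - (1 + η) • b with hy
    have h3 : ‖y‖ ≤ 1 := by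
      have := (norm_shift (x := x) hb hηp.le).2
      have := (hχs x h).2
      linarith
    have h4 : ⟪b, y⟫ ≤ -η := inner_shift hb hx η
    have h5 : η ≤ ‖y‖ := by
      have := abs_real_inner_le_norm b y
      rw [hb, one_mul] at this
      have := (abs_le.1 this).1
      linarith
    have h6 : Real.log ‖y‖ ≤ 0 := Real.log_nonpos (norm_nonneg _) h3
    have h7 : -(1 / δ) ≤ Real.log ‖y‖ := hlogη ▸ Real.log_le_log hηp h5
    have h8 : 0 ≤ δ * χ x := mul_nonneg hδp.le (hχ x).1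
    refine ⟨δ * χ x * -Real.log ‖y‖, mul_nonneg h8 (by linarith), ?_, ?_⟩
    · have h9 : δ * -Real.log ‖y‖ ≤ 1 := by
        have : δ * (1 / δ) = 1 := by field_simp
        nlinarith
      have : 0 ≤ δ * -Real.log ‖y‖ := mul_nonneg hδp.le (by linarith)
      nlinarith [(hχ x).1, (hχ x).2]
    · have e1 : f x + (δ * χ x) • V (Tent b y) - f x - (δ * χ x * -Real.log ‖y‖) • V b
          = (δ * χ x) • V ((‖y‖ - ⟪b, y⟫)⁻¹ • (y - ⟪b, y⟫ • b)) := by
        simp only [Tent, map_sub V _ (Real.log ‖y‖ • b), map_smul V (Real.log ‖y‖)]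
        module
      rw [e1, norm_smul, hV, Real.norm_eq_abs, abs_of_nonneg h8]
      have := norm_stereo_le hb (y := y) (by linarith)
      have h5 : δ * χ x ≤ ε := by nlinarith [(hχ x).1, (hχ x).2]
      nlinarith [norm_nonneg ((‖y‖ - ⟪b, y⟫)⁻¹ • (y - ⟪b, y⟫ • b))]
  · have e0 : b - (1 + η) • b = (-η) • b := by module
    have hn : ‖(-η) • b‖ = η := by
      rw [norm_smul, hb, mul_one, norm_neg, Real.norm_eq_abs, abs_of_pos hηp]
    simp only [hχb, e0, Tent, hn, inner_smul_right, hbb, hlogη, mul_one, sub_self, smul_zero,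
      zero_sub, map_neg, map_smul, smul_neg, smul_smul]
    have : δ * -(1 / δ) = -1 := by field_simp
    rw [this]
    simp

lemma stage (h3 : 3 ≤ Module.finrank ℝ E) {L L' M : ℝ} (hL : 3 ≤ L) (hLL : L < L') (hM : 1 ≤ M)
    {f : E → E} (hf : Inv L f) (hfM : ∀ x ∈ closedBall (0 : E) 1, ‖f x‖ ≤ M) {b : E}
    (hb : ‖b‖ = 1) {ρ ε : ℝ} (hρ : 0 < ρ) (hε : 0 < ε) :
    ∃ f' : E → E, Inv L' f' ∧ (∀ x ∈ closedBall (0 : E) 1, ‖f' x‖ ≤ M + ε) ∧
      (∀ x, ρ ≤ dist x b → f' x = f x) ∧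
      ∃ x1 x2 : E, ‖x1‖ < 1 ∧ ‖x2‖ < 1 ∧ dist x1 b ≤ ρ ∧ dist x2 b ≤ ρ ∧
        1 / 2 ≤ ‖f' x1 - f' x2‖ := by
  have hbB : b ∈ closedBall (0 : E) 1 := by simp [hb]
  set e := min (ε / 5) (1 / 20) with he
  have he0 : 0 < e := by positivity
  have he1 : e ≤ ε / 5 := min_le_left _ _
  have he2 : e ≤ 1 / 20 := min_le_right _ _
  obtain ⟨ρ1, hρ1, hρ1'⟩ := Metric.continuousAt_iff.1 (hf b hbB).1.continuousAt e he0
  set r := min (min ρ (ρ1 / 2)) 1 with hr
  have hr0 : 0 < r := by positivity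
  have hr1 : r ≤ ρ := (min_le_left _ _).trans (min_le_left _ _)
  have hr2 : r ≤ ρ1 / 2 := (min_le_left _ _).trans (min_le_right _ _)
  have hr3 : r ≤ 1 := min_le_right _ _
  obtain ⟨d, hd1, hd2⟩ : ∃ d : E, ‖d‖ = 1 ∧ ∀ t : ℝ, 0 ≤ t → t ≤ 1 → ‖f b + t • d‖ ≤ M := by
    rcases eq_or_ne (f b) 0 with h | h
    · refine ⟨b, hb, fun t h0 h1 => ?_⟩
      rw [h, zero_add, norm_smul, hb, Real.norm_eq_abs, abs_of_nonneg h0]
      linarith
    · have hp : 0 < ‖f b‖ := norm_pos_iff.2 h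
      refine ⟨(-‖f b‖⁻¹) • f b, ?_, fun t h0 h1 => ?_⟩
      · rw [norm_smul, norm_neg, norm_inv, norm_norm]; field_simp
      · have : f b + t • (-‖f b‖⁻¹) • f b = ((‖f b‖ - t) * ‖f b‖⁻¹) • f b := by
          rw [sub_mul, mul_inv_cancel₀ hp.ne']
          module
        rw [this, norm_smul, norm_mul, norm_inv, norm_norm, mul_assoc, inv_mul_cancel₀ hp.ne',
          mul_one, Real.norm_eq_abs, abs_le]
        have := hfM b hbB
        constructor <;> linarith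
  set L1 := L + (L' - L) / 4
  set L2 := L + 2 * (L' - L) / 4
  set L3 := L + 3 * (L' - L) / 4
  have hL1 : L < L1 := by simp only [L1]; linarith
  have hL2 : L1 < L2 := by simp only [L1, L2]; linarith
  have hL3 : L2 < L3 := by simp only [L3, L2]; linarith
  have hL4 : L3 < L' := by simp only [L3]; linarith
  obtain ⟨m, hm, hmA⟩ := (hf b hbB).2
  obtain ⟨U, hU, hAU⟩ := polar hm _ (fun v => (hmA v).1)
  obtain ⟨f1, i1, o1, c1, l1, hl1, n1⟩ := twist (by linarith) hL1 hf hb U hU hm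
    (fun t ht y hy h => hA_polar hL hmA hU hAU t ht y hy h) hr0 he0
  obtain ⟨w, hw, hw1, hw2⟩ := exists_orth h3 (U b) d
  obtain ⟨R1, hR1, hR1', hR1''⟩ := quarter ((hU b).trans hb) hw hw1
  obtain ⟨R2, hR2, hR2', hR2''⟩ := quarter hw hd1 hw2
  have hU2 : ∀ v, ‖(R1.comp U) v‖ = ‖v‖ := fun v => (hR1 _).trans (hU v)
  have hU3 : ∀ v, ‖(R2.comp (R1.comp U)) v‖ = ‖v‖ := fun v => (hR2 _).trans (hU2 v)
  obtain ⟨f2, i2, o2, c2, l2, hl2, n2⟩ := twist (by linarith) hL2 i1 hb (R1.comp U) hU2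
    (c := 2 / 5 * l1) (by positivity)
    (fun t ht y hy h => hA_rot (by linarith) hl1 n1 hU hU2 (fun v => hR1' _) t ht y hy h) hr0 he0
  obtain ⟨f3, i3, o3, c3, n3⟩ := twist (by linarith) hL3 i2 hb (R2.comp (R1.comp U)) hU3
    (c := 2 / 5 * l2) (by positivity)
    (fun t ht y hy h => hA_rot (by linarith) hl2 n2 hU2 hU3 (fun v => hR2' _) t ht y hy h) hr0 he0
  obtain ⟨f4, i4, o4, c4, hb4⟩ := tentacle (by linarith) hL4 i3 hb _ hU3 n3 hr0 he0
  have hVb : (R2.comp (R1.comp U)) b = d := by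
    simp only [ContinuousLinearMap.comp_apply, hR1'', hR2'']
  rw [hVb] at c4 hb4
  have hout : ∀ x, r ≤ dist x b → f4 x = f x := fun x hx => by
    rw [o4 x hx, o3 x hx, o2 x hx, o1 x hx]
  have hclose : ∀ x ∈ closedBall (0 : E) 1, ‖f3 x - f x‖ ≤ 3 * e := by
    intro x hx
    have : f3 x - f x = (f3 x - f2 x) + (f2 x - f1 x) + (f1 x - f x) := by abel
    rw [this]
    have := norm_add₃_le (a := f3 x - f2 x) (b := f2 x - f1 x) (c := f1 x - f x)
    linarith [c1 x hx, c2 x hx, c3 x hx]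
  have hnear : ∀ x, dist x b ≤ r → ‖f x - f b‖ ≤ e := fun x hx => by
    have := hρ1' (x := x) (by linarith)
    rw [dist_eq_norm] at this
    exact this.le
  refine ⟨f4, i4, ?_, fun x hx => hout x (hr1.trans hx), ?_⟩
  · intro x hx
    by_cases h : r ≤ dist x b
    · rw [hout x h]; linarith [hfM x hx]
    obtain ⟨t, t0, t1, ht⟩ := c4 x hx
    have : f4 x = (f4 x - f3 x - t • d) + (f3 x - f x) + (f x - f b) + (f b + t • d) := by abel
    rw [this]
    have := norm_add₄_le (a := f4 x - f3 x - t • d) (b := f3 x - f x) (c := f x - f b)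
      (d := f b + t • d)
    linarith [hclose x hx, hnear x (not_le.1 h).le, hd2 t t0 t1]
  · obtain ⟨ρ2, hρ2, hρ2'⟩ := Metric.continuousAt_iff.1 (i4 b hbB).1.continuousAt e he0
    have key : ∀ s : ℝ, 0 < s → s ≤ 1 → ‖(1 - s) • b‖ < 1 ∧ dist ((1 - s) • b) b = s := by
      intro s s0 s1
      constructor
      · rw [norm_smul, hb, mul_one, Real.norm_eq_abs, abs_of_nonneg (by linarith)]; linarith
      · have : (1 - s) • b - b = (-s) • b := by module
        rw [dist_eq_norm, this, norm_smul, hb, mul_one, norm_neg, Real.norm_eq_abs, abs_of_pos s0]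
    set s := min r (ρ2 / 2) with hs
    have hs0 : 0 < s := by positivity
    have hs1 : s ≤ r := min_le_left _ _
    have hs2 : s ≤ ρ2 / 2 := min_le_right _ _
    obtain ⟨k1, k2⟩ := key s hs0 (hs1.trans hr3)
    obtain ⟨k3, k4⟩ := key r hr0 hr3
    refine ⟨(1 - s) • b, (1 - r) • b, k1, k3, by linarith, by linarith, ?_⟩
    have a1 : ‖f4 ((1 - s) • b) - f4 b‖ ≤ e := by
      have := hρ2' (x := (1 - s) • b) (by linarith)
      rw [dist_eq_norm] at this
      exact this.le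
    rw [hout ((1 - r) • b) k4.ge]
    have a2 := hnear _ k4.le
    have a3 := hclose b hbB
    have : d = (f4 ((1 - s) • b) - f ((1 - r) • b)) + (f ((1 - r) • b) - f b)
        + -(f4 ((1 - s) • b) - f4 b) + -(f3 b - f b) := by rw [hb4]; abel
    have a4 := norm_add₄_le (a := f4 ((1 - s) • b) - f ((1 - r) • b)) (b := f ((1 - r) • b) - f b)
      (c := -(f4 ((1 - s) • b) - f4 b)) (d := -(f3 b - f b))
    rw [← this, hd1, norm_neg, norm_neg] at a4
    linarith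

end Pool.Agent.Lib.MP_ec86f1_an
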